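import Pool.Agent.Helper59_Flow.Defs

/-!
# MODULE A: the combinatorial contradiction
-/

set_option autoImplicit false

open Finset

namespace Pool.Agent.Helper59_Flow

namespace ModA

variable {ι : Type}

theorem shift_inj (g : Z3) : Function.Injective (fun j : ι × Z3 => (j.1, j.2 + g)) := by
  rintro ⟨a, b⟩ ⟨c, d⟩ h
  simp only [Prod.mk.injEq, add_left_inj] at h
  exact Prod.ext h.1 h.2

/-- `shift g` as an additive homomorphism -/
noncomputable def sh (g : Z3) : L ι →+ L ι :=
  Finsupp.mapDomain.addMonoidHom (fun j : ι × Z3 => (j.1, j.2 + g))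

theorem sh_apply (g : Z3) (l : L ι) : sh g l = shift g l := rfl

theorem sh_zero (l : L ι) : sh 0 l = l := by
  rw [sh_apply, shift]
  have : (fun j : ι × Z3 => (j.1, j.2 + 0)) = id := by
    ext j <;> simp
  rw [this, Finsupp.mapDomain_id]

theorem sh_sh (g g' : Z3) (l : L ι) : sh g' (sh g l) = sh (g + g') l := by
  rw [sh_apply, sh_apply, sh_apply, shift, shift, shift, ← Finsupp.mapDomain_comp]
  congr 1
  ext j
  · rfl
  · simp [add_assoc]

theorem support_zsmul {a : ℤ} (ha : a ≠ 0) (l : L ι) : (a • l).support = l.support := by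
  ext j
  simp [Finsupp.mem_support_iff, ha]

theorem eq_zero_of_comm {l : L ι} (hl : l ≠ 0) {g : Z3} {a b : ℤ} (ha : a ≠ 0) (hb : b ≠ 0)
    (h : a • sh g l = b • l) : g = 0 := by
  classical
  have h1 : (sh g l).support = l.support := by
    rw [← support_zsmul ha (sh g l), h, support_zsmul hb]
  have h2 : (sh g l).support = l.support.image (fun j : ι × Z3 => (j.1, j.2 + g)) := by
    rw [sh_apply, shift]
    exact Finsupp.mapDomain_support_of_injective (shift_inj g) l
  rw [h1] at h2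
  have h3 : ∑ j ∈ l.support, j.2 = ∑ j ∈ l.support, (j.2 + g) := by
    conv_lhs => rw [h2]
    rw [Finset.sum_image (fun a _ b _ hab => shift_inj g hab)]
  rw [Finset.sum_add_distrib, Finset.sum_const] at h3
  have h4 : l.support.card • g = 0 := by
    have := h3
    rw [left_eq_add] at this
    exact this
  have h5 : l.support.card ≠ 0 := by
    rw [Finset.card_ne_zero]
    exact Finsupp.support_nonempty_iff.2 hl
  exact (smul_eq_zero.1 h4).resolve_left h5

/-- the functional -/
noncomputable def cc (x : ι → Z3) : L ι →+ ℤ :=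
  Finsupp.liftAddHom fun j => AddMonoidHom.mulRight (j.2 0 * x j.1 1)

theorem cc_single (x : ι → Z3) (j : ι × Z3) (n : ℤ) :
    cc x (Finsupp.single j n) = n * (j.2 0 * x j.1 1) := by
  simp [cc]

theorem disp_single (x : ι → Z3) (j : ι × Z3) (n : ℤ) :
    disp x (Finsupp.single j n) = n • x j.1 := by
  simp [disp]

theorem disp_add (x : ι → Z3) (l l' : L ι) : disp x (l + l') = disp x l + disp x l' := by
  unfold disp
  exact Finsupp.sum_add_index' (fun _ => zero_smul _ _) (fun _ _ _ => add_smul _ _ _)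

theorem cc_shift (x : ι → Z3) (g : Z3) (l : L ι) :
    cc x (sh g l) = cc x l + g 0 * disp x l 1 := by
  induction l using Finsupp.induction_linear with
  | zero => simp [disp]
  | add l l' h h' =>
    rw [map_add, map_add, map_add, h, h', disp_add, Pi.add_apply]
    ring
  | single j n =>
    rw [sh_apply, shift, Finsupp.mapDomain_single, cc_single, cc_single, disp_single]
    simp only [Pi.add_apply, Pi.smul_apply, smul_eq_mul]
    ring

section Main

variable (A : Fin 3 → Z3 → L ι)

/-- the holonomy of the face at `v` orthogonal to the direction `n` -/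
noncomputable def hh (n : Fin 3) (v : Z3) : L ι :=
  if n = 0 then hol A 1 2 v else if n = 1 then hol A 0 2 v else hol A 0 1 v

theorem hh_zero (v : Z3) : hh A 0 v = hol A 1 2 v := by simp [hh]
theorem hh_one (v : Z3) : hh A 1 v = hol A 0 2 v := by simp [hh]
theorem hh_two (v : Z3) : hh A 2 v = hol A 0 1 v := by simp [hh]

theorem cube_identity (v : Z3) : hh A 2 (v + e 2) - hh A 2 v + (hh A 0 (v + e 0) - hh A 0 v) -
    (hh A 1 (v + e 1) - hh A 1 v) = 0 := by
  rw [hh_zero, hh_zero, hh_one, hh_one, hh_two, hh_two]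
  unfold hol
  rw [show v + e 2 + e 0 = v + e 0 + e 2 by abel, show v + e 2 + e 1 = v + e 1 + e 2 by abel,
    show v + e 1 + e 0 = v + e 0 + e 1 by abel]
  abel

/-- commensurability with `l₀` -/
def Com (l₀ l : L ι) : Prop := ∃ a b : ℤ, a ≠ 0 ∧ b ≠ 0 ∧ a • l = b • l₀

theorem Com.ne_zero {l₀ l : L ι} (h0 : l₀ ≠ 0) (h : Com l₀ l) : l ≠ 0 := by
  obtain ⟨a, b, ha, hb, hab⟩ := h
  rintro rfl
  rw [smul_zero] at hab
  exact (smul_ne_zero hb h0) hab.symm

/-- the part of the holonomy in the class of `l₀` -/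
noncomputable def hC (l₀ : L ι) (n : Fin 3) (v : Z3) : L ι := by
  classical
  exact if Com l₀ (hh A n v) then hh A n v else 0

variable {A}

/-- the cube condition -/
def CubeCond (A : Fin 3 → Z3 → L ι) : Prop :=
  ∀ v : Z3, ∃ d : L ι, ∀ n : Fin 3, (∃ z : ℤ, hh A n v = z • d) ∧ ∃ z : ℤ, hh A n (v + e n) = z • d

theorem hC_eq_of {l₀ : L ι} {d : L ι} {n n' : Fin 3} {v v' : Z3}
    {z z' : ℤ} (h : hh A n v = z • d) (h' : hh A n' v' = z' • d) (h0 : l₀ ≠ 0)
    (hc : Com l₀ (hh A n v)) : hC A l₀ n' v' = hh A n' v' := by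
  unfold hC
  split_ifs with hc'
  · rfl
  · by_contra hne
    apply hc'
    have hz : z ≠ 0 := by
      rintro rfl
      rw [zero_smul] at h
      exact hc.ne_zero h0 h
    have hz' : z' ≠ 0 := by
      rintro rfl
      rw [zero_smul] at h'
      exact hne h'.symm
    obtain ⟨a, b, ha, hb, hab⟩ := hc
    refine ⟨a * z, z' * b, mul_ne_zero ha hz, mul_ne_zero hz' hb, ?_⟩
    rw [mul_smul z' b, ← hab, h, h', smul_smul, smul_smul, smul_smul]
    congr 1
    ring

theorem cube_identity_C (hcube : CubeCond A) {l₀ : L ι} (h0 : l₀ ≠ 0) (v : Z3) :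
    hC A l₀ 2 (v + e 2) - hC A l₀ 2 v + (hC A l₀ 0 (v + e 0) - hC A l₀ 0 v) -
    (hC A l₀ 1 (v + e 1) - hC A l₀ 1 v) = 0 := by
  obtain ⟨d, hd⟩ := hcube v
  by_cases hex : ∃ n, Com l₀ (hh A n v) ∨ Com l₀ (hh A n (v + e n))
  · obtain ⟨n, hn⟩ := hex
    have key : ∀ n', hC A l₀ n' v = hh A n' v ∧ hC A l₀ n' (v + e n') = hh A n' (v + e n') := by
      intro n'
      obtain ⟨⟨z1, hz1⟩, ⟨z2, hz2⟩⟩ := hd n
      obtain ⟨⟨z1', hz1'⟩, ⟨z2', hz2'⟩⟩ := hd n'
      rcases hn with hn | hn
      · exact ⟨hC_eq_of hz1 hz1' h0 hn, hC_eq_of hz1 hz2' h0 hn⟩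
      · exact ⟨hC_eq_of hz2 hz1' h0 hn, hC_eq_of hz2 hz2' h0 hn⟩
    rw [(key 0).1, (key 0).2, (key 1).1, (key 1).2, (key 2).1, (key 2).2]
    exact cube_identity A v
  · push Not at hex
    have key : ∀ n', hC A l₀ n' v = 0 ∧ hC A l₀ n' (v + e n') = 0 := by
      intro n'
      unfold hC
      exact ⟨if_neg (hex n').1, if_neg (hex n').2⟩
    rw [(key 0).1, (key 0).2, (key 1).1, (key 1).2, (key 2).1, (key 2).2]
    simp

theorem hh_shift {m : ℕ} (hA : ∀ k v g, A k (v + m • g) = shift g (A k v)) (n : Fin 3)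
    (v g : Z3) : hh A n (v + m • g) = sh g (hh A n v) := by
  have key : ∀ k l, hol A k l (v + m • g) = sh g (hol A k l v) := by
    intro k l
    unfold hol
    rw [show v + m • g + e k = v + e k + m • g by abel, show v + m • g + e l = v + e l + m • g by abel,
      hA, hA, hA, hA, map_sub, map_sub, map_add]
    rfl
  unfold hh
  split_ifs <;> exact key _ _

theorem finite_class {m : ℕ} (hm : 0 < m) (hA : ∀ k v g, A k (v + m • g) = shift g (A k v))
    {l₀ : L ι} (h0 : l₀ ≠ 0) {n : Fin 3} {w g : Z3}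
    (h1 : Com l₀ (hh A n w)) (h2 : Com l₀ (hh A n (w + m • g))) : g = 0 := by
  rw [hh_shift hA] at h2
  obtain ⟨a, b, ha, hb, hab⟩ := h1
  obtain ⟨a', b', ha', hb', hab'⟩ := h2
  refine eq_zero_of_comm (Com.ne_zero h0 ⟨a, b, ha, hb, hab⟩) (mul_ne_zero hb ha')
    (mul_ne_zero hb' ha) ?_
  rw [mul_smul, mul_smul, hab', hab, smul_smul, smul_smul, mul_comm]

theorem exists_shift_of_mod {m : ℕ} {w w' : Z3} (h : ∀ i, (w i : ZMod m) = (w' i : ZMod m)) :
    ∃ g : Z3, w' = w + m • g := by
  have h1 : ∀ i, ∃ c : ℤ, w' i - w i = m * c := fun i =>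
    (ZMod.intCast_eq_intCast_iff_dvd_sub _ _ _).1 (h i)
  choose g hg using h1
  refine ⟨g, ?_⟩
  ext i
  have h2 : (m • g) i = m * g i := by
    rw [Pi.smul_apply, nsmul_eq_mul]
  rw [Pi.add_apply, h2]
  linarith [hg i]

theorem finite_com {m : ℕ} (hm : 0 < m) (hA : ∀ k v g, A k (v + m • g) = shift g (A k v))
    {l₀ : L ι} (h0 : l₀ ≠ 0) (n : Fin 3) : {w : Z3 | Com l₀ (hh A n w)}.Finite := by
  haveI : NeZero m := ⟨hm.ne'⟩
  refine Set.Finite.of_finite_image (f := fun w : Z3 => fun i => (w i : ZMod m)) (Set.toFinite _) ?_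
  intro w hw w' hw' hww
  obtain ⟨g, rfl⟩ := exists_shift_of_mod (fun i => congrFun hww i)
  have := finite_class hm hA h0 hw hw'
  subst this
  simp

end Main

/-- weighted sums over the lattice -/
theorem finsum_shift (ψ : ℤ → ℤ) (f : Z3 → ℤ) (u : Z3) :
    ∑ᶠ w : Z3, ψ (w 2) * f (w + u) = ∑ᶠ w : Z3, ψ (w 2 - u 2) * f w := by
  rw [← finsum_comp_equiv (Equiv.addRight u) (f := fun w : Z3 => ψ (w 2 - u 2) * f w)]
  apply finsum_congr
  intro w
  simp

theorem finsum_shift' (ψ : ℤ → ℤ) (f : Z3 → ℤ) (u : Z3) (hu : u 2 = 0) :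
    ∑ᶠ w : Z3, ψ (w 2) * f (w + u) = ∑ᶠ w : Z3, ψ (w 2) * f w := by
  rw [finsum_shift, hu]
  simp

theorem finite_supp {f : Z3 → ℤ} (hf : (Function.support f).Finite) (ψ : ℤ → ℤ) (u : Z3) :
    (Function.support (fun w : Z3 => ψ (w 2) * f (w + u))).Finite := by
  have h1 : (Function.support (fun w : Z3 => f (w + u))).Finite := by
    have : Function.support (fun w : Z3 => f (w + u)) = (fun w => w + u) ⁻¹' Function.support f := rfl
    rw [this]
    exact hf.preimage (add_left_injective u).injOn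
  refine h1.subset ?_
  intro w hw
  rw [Function.mem_support] at hw ⊢
  exact right_ne_zero_of_mul hw

theorem main_sum {f : Fin 3 → Z3 → ℤ} (hf : ∀ n, (Function.support (f n)).Finite)
    (hid : ∀ v, f 2 (v + e 2) - f 2 v + (f 0 (v + e 0) - f 0 v) - (f 1 (v + e 1) - f 1 v) = 0)
    (ψ : ℤ → ℤ) : ∑ᶠ w : Z3, (ψ (w 2 - 1) - ψ (w 2)) * f 2 w = 0 := by
  have hu : ∀ (n : Fin 3) (u : Z3), (Function.support (fun w : Z3 => ψ (w 2) * f n (w + u))).Finite :=
    fun n u => finite_supp (hf n) ψ u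
  have hu0 : ∀ (n : Fin 3), (Function.support (fun w : Z3 => ψ (w 2) * f n w)).Finite := by
    intro n
    simpa using hu n 0
  have h2 : ∑ᶠ w : Z3, ψ (w 2) * f 2 (w + e 2) = ∑ᶠ w : Z3, ψ (w 2 - 1) * f 2 w := by
    rw [finsum_shift]
    simp [e]
  have h2f : (Function.support (fun w : Z3 => ψ (w 2 - 1) * f 2 w)).Finite := by
    refine (hf 2).subset ?_
    intro w hw
    rw [Function.mem_support] at hw ⊢
    exact right_ne_zero_of_mul hw
  have h0 : ∑ᶠ w : Z3, ψ (w 2) * f 0 (w + e 0) = ∑ᶠ w : Z3, ψ (w 2) * f 0 w :=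
    finsum_shift' _ _ _ (by simp [e])
  have h1 : ∑ᶠ w : Z3, ψ (w 2) * f 1 (w + e 1) = ∑ᶠ w : Z3, ψ (w 2) * f 1 w :=
    finsum_shift' _ _ _ (by simp [e])
  have e1 : ∑ᶠ w : Z3, (ψ (w 2 - 1) - ψ (w 2)) * f 2 w =
      ∑ᶠ w : Z3, ψ (w 2 - 1) * f 2 w - ∑ᶠ w : Z3, ψ (w 2) * f 2 w := by
    rw [← finsum_sub_distrib h2f (hu0 2)]
    apply finsum_congr
    intro w
    ring
  rw [e1, ← h2, ← finsum_sub_distrib (hu 2 _) (hu0 2)]
  have e2 : ∀ w : Z3, ψ (w 2) * f 2 (w + e 2) - ψ (w 2) * f 2 w =
      (ψ (w 2) * f 1 (w + e 1) - ψ (w 2) * f 1 w) - (ψ (w 2) * f 0 (w + e 0) - ψ (w 2) * f 0 w) := by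
    intro w
    linear_combination (ψ (w 2)) * hid w
  rw [finsum_congr e2, finsum_sub_distrib, finsum_sub_distrib (hu 1 _) (hu0 1),
    finsum_sub_distrib (hu 0 _) (hu0 0), h0, h1]
  · ring
  · refine ((hu 1 (e 1)).union (hu0 1)).subset ?_
    exact Function.support_sub _ _
  · refine ((hu 0 (e 0)).union (hu0 0)).subset ?_
    exact Function.support_sub _ _

/-- The sum over one class. -/
theorem class_sum {m : ℕ} (hm : 0 < m) {A : Fin 3 → Z3 → L ι}
    (hA : ∀ k v g, A k (v + m • g) = shift g (A k v)) (hcube : CubeCond A)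
    {l₀ : L ι} (h0 : l₀ ≠ 0) (c : L ι →+ ℤ) (W : Finset Z3)
    (hW : ∀ w, w ∈ W ↔ (m : ℤ) ∣ w 2 ∧ Com l₀ (hh A 2 w)) : ∑ w ∈ W, c (hh A 2 w) = 0 := by
  classical
  have hm' : (0 : ℤ) < m := by exact_mod_cast hm
  have hf : ∀ n, (Function.support (fun w => c (hC A l₀ n w))).Finite := by
    intro n
    refine (finite_com hm hA h0 n).subset ?_
    intro w hw
    by_contra hcon
    apply hw
    show c (hC A l₀ n w) = 0
    have : hC A l₀ n w = 0 := by
      unfold hC
      exact if_neg hcon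
    rw [this, map_zero]
  have hid : ∀ v, c (hC A l₀ 2 (v + e 2)) - c (hC A l₀ 2 v) + (c (hC A l₀ 0 (v + e 0)) -
      c (hC A l₀ 0 v)) - (c (hC A l₀ 1 (v + e 1)) - c (hC A l₀ 1 v)) = 0 := by
    intro v
    have := congrArg c (cube_identity_C hcube h0 v)
    simpa only [map_add, map_sub, map_zero] using this
  have key := main_sum (f := fun n w => c (hC A l₀ n w)) hf hid (fun t => -(t / m))
  have hφ : ∀ t : ℤ, (-((t - 1) / m) - -(t / m) : ℤ) = if (m : ℤ) ∣ t then 1 else 0 := by
    intro t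
    split_ifs with h
    · obtain ⟨k, rfl⟩ := h
      rw [Int.mul_ediv_cancel_left _ hm'.ne']
      have : ((m : ℤ) * k - 1) / m = k - 1 := by
        rw [show (m : ℤ) * k - 1 = (m - 1) + m * (k - 1) by ring,
          Int.add_mul_ediv_left _ _ hm'.ne', Int.ediv_eq_zero_of_lt (by omega) (by omega)]
        ring
      rw [this]
      ring
    · have h1 : t = m * (t / m) + t % m := (Int.mul_ediv_add_emod t m).symm
      have h2 : 0 < t % m := by
        rcases (Int.emod_nonneg t hm'.ne').lt_or_eq with h2 | h2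
        · exact h2
        · exact absurd (Int.dvd_of_emod_eq_zero h2.symm) h
      have h3 := Int.emod_lt_of_pos t hm'
      have : (t - 1) / m = t / m := by
        conv_lhs => rw [h1]
        rw [show (m : ℤ) * (t / m) + t % m - 1 = (t % m - 1) + m * (t / m) by ring,
          Int.add_mul_ediv_left _ _ hm'.ne', Int.ediv_eq_zero_of_lt (by omega) (by omega)]
        ring
      rw [this]
      ring
  have e1 : ∑ᶠ w : Z3, ((fun t : ℤ => -(t / m)) (w 2 - 1) - (fun t : ℤ => -(t / m)) (w 2)) *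
      (fun (n : Fin 3) w => c (hC A l₀ n w)) 2 w =
      ∑ w ∈ W, c (hh A 2 w) := by
    have e2 : ∀ w : Z3, ((fun t : ℤ => -(t / m)) (w 2 - 1) - (fun t : ℤ => -(t / m)) (w 2)) *
        (fun (n : Fin 3) w => c (hC A l₀ n w)) 2 w = if w ∈ W then c (hh A 2 w) else 0 := by
      intro w
      simp only
      rw [hφ]
      by_cases hw : w ∈ W
      · rw [if_pos hw]
        rw [hW] at hw
        rw [if_pos hw.1, one_mul]
        unfold hC
        rw [if_pos hw.2]
      · rw [if_neg hw]
        rw [hW] at hw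
        by_cases h1 : (m : ℤ) ∣ w 2
        · have h2 : ¬ Com l₀ (hh A 2 w) := fun h => hw ⟨h1, h⟩
          unfold hC
          rw [if_neg h2, map_zero, mul_zero]
        · rw [if_neg h1, zero_mul]
    rw [finsum_congr e2, finsum_eq_sum_of_support_subset (s := W)]
    · exact Finset.sum_congr rfl (fun w hw => if_pos hw)
    · intro w hw
      by_contra hcon
      exact hw (if_neg hcon)
  rw [← e1]
  exact key

/-- the points `i e₀ + j e₁` -/
def P (i j : ℕ) : Z3 := i • e 0 + j • e 1

theorem P_zero (i j : ℕ) : P i j 0 = i := by simp [P, e]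
theorem P_one (i j : ℕ) : P i j 1 = j := by simp [P, e]
theorem P_two (i j : ℕ) : P i j 2 = 0 := by simp [P, e]
theorem P_succ_right (i j : ℕ) : P i (j + 1) = P i j + e 1 := by
  simp only [P, add_smul, one_smul]; abel
theorem P_succ_left (i j : ℕ) : P (i + 1) j = P i j + e 0 := by
  simp only [P, add_smul, one_smul]; abel

theorem stokes {m : ℕ} {A : Fin 3 → Z3 → L ι}
    (hA : ∀ k v g, A k (v + m • g) = shift g (A k v)) {x : ι → Z3}
    (hd : ∀ k v, disp x (∑ i ∈ Finset.range m, A k (v + i • e k)) = - e k) :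
    cc x (∑ i ∈ range m, ∑ j ∈ range m, hh A 2 (P i j)) = -1 := by
  set X := ∑ i ∈ range m, A 0 (0 + i • e 0) with hX
  set Y := ∑ j ∈ range m, A 1 (0 + j • e 1) with hY
  have hP : ∑ i ∈ range m, ∑ j ∈ range m, hh A 2 (P i j) = X - sh (e 1) X + (sh (e 0) Y - Y) := by
    have h1 : ∀ i j, hh A 2 (P i j) = (A 0 (P i j) - A 0 (P i (j + 1))) +
        (A 1 (P (i + 1) j) - A 1 (P i j)) := by
      intro i j
      rw [hh_two, P_succ_right, P_succ_left]
      unfold hol
      abel
    simp_rw [h1, Finset.sum_add_distrib]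
    congr 1
    · have h2 : ∀ i ∈ range m, ∑ j ∈ range m, (A 0 (P i j) - A 0 (P i (j + 1))) =
          A 0 (0 + i • e 0) - sh (e 1) (A 0 (0 + i • e 0)) := by
        intro i _
        rw [Finset.sum_range_sub']
        have e1 : P i 0 = 0 + i • e 0 := by simp [P]
        have e2 : P i m = 0 + i • e 0 + m • e 1 := by simp [P]
        rw [e2, hA, e1]
        rfl
      rw [Finset.sum_congr rfl h2, Finset.sum_sub_distrib, hX, map_sum]
    · rw [Finset.sum_comm]
      have h2 : ∀ j ∈ range m, ∑ i ∈ range m, (A 1 (P (i + 1) j) - A 1 (P i j)) =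
          sh (e 0) (A 1 (0 + j • e 1)) - A 1 (0 + j • e 1) := by
        intro j _
        rw [Finset.sum_range_sub (fun i => A 1 (P i j))]
        have e1 : P 0 j = 0 + j • e 1 := by simp [P]
        have e2 : P m j = 0 + j • e 1 + m • e 0 := by simp [P, add_comm]
        rw [e2, hA, e1]
        rfl
      rw [Finset.sum_congr rfl h2, Finset.sum_sub_distrib, hY, map_sum]
  rw [hP, map_add, map_sub, map_sub, cc_shift, cc_shift]
  have h3 := hd 0 0
  have h4 := hd 1 0
  rw [← hX] at h3
  rw [← hY] at h4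
  rw [h3, h4]
  simp [e]

/-- the equivalence relation: commensurable up to translation -/
def Rel (l l' : L ι) : Prop := ∃ g : Z3, ∃ a b : ℤ, a ≠ 0 ∧ b ≠ 0 ∧ a • sh g l = b • l'

theorem Rel.refl (l : L ι) : Rel l l := ⟨0, 1, 1, one_ne_zero, one_ne_zero, by rw [sh_zero]⟩

theorem Rel.symm {l l' : L ι} (h : Rel l l') : Rel l' l := by
  obtain ⟨g, a, b, ha, hb, h⟩ := h
  refine ⟨-g, b, a, hb, ha, ?_⟩
  rw [← map_zsmul, ← h, map_zsmul, sh_sh, add_neg_cancel, sh_zero]

theorem Rel.trans {l l' l'' : L ι} (h : Rel l l') (h' : Rel l' l'') : Rel l l'' := by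
  obtain ⟨g, a, b, ha, hb, h⟩ := h
  obtain ⟨g', a', b', ha', hb', h'⟩ := h'
  refine ⟨g + g', a' * a, b * b', mul_ne_zero ha' ha, mul_ne_zero hb hb', ?_⟩
  rw [mul_smul, ← sh_sh, ← map_zsmul, h, map_zsmul, smul_comm, h', smul_smul]

end ModA

open ModA

theorem moduleA : AStatement := by
  classical
  intro ι x m hm A hA hcube hdisp hper
  have hm' : (0 : ℤ) < m := by exact_mod_cast hm
  haveI : NeZero m := ⟨hm.ne'⟩
  have hcube' : CubeCond A := by
    intro v
    obtain ⟨d, hd⟩ := hcube v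
    refine ⟨d, fun n => ?_⟩
    fin_cases n
    · simp only [Fin.zero_eta, hh_zero]
      exact ⟨hd 1 2 v (Or.inl rfl) (by decide), hd 1 2 _ (Or.inr ⟨0, by decide, by decide, rfl⟩)
        (by decide)⟩
    · simp only [Fin.mk_one, hh_one]
      exact ⟨hd 0 2 v (Or.inl rfl) (by decide), hd 0 2 _ (Or.inr ⟨1, by decide, by decide, rfl⟩)
        (by decide)⟩
    · simp only [Fin.reduceFinMk, hh_two]
      exact ⟨hd 0 1 v (Or.inl rfl) (by decide), hd 0 1 _ (Or.inr ⟨2, by decide, by decide, rfl⟩)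
        (by decide)⟩
  have h1 := stokes hA hper
  -- the sum vanishes
  let D : Finset (ℕ × ℕ) := range m ×ˢ range m
  let hf : ℕ × ℕ → L ι := fun z => hh A 2 (P z.1 z.2)
  let R : Setoid (ℕ × ℕ) := ⟨fun z z' => Rel (hf z) (hf z'), fun z => Rel.refl _,
    fun h => Rel.symm h, fun h h' => Rel.trans h h'⟩
  have hsum : ∑ z ∈ D, cc x (hf z) = 0 := by
    rw [Finset.sum_partition R]
    apply Finset.sum_eq_zero
    intro q hq
    obtain ⟨z₀, hz₀, rfl⟩ := Finset.mem_image.1 hq
    by_cases h0 : hf z₀ = 0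
    · apply Finset.sum_eq_zero
      intro z hz
      rw [Finset.mem_filter] at hz
      have hrel : Rel (hf z) (hf z₀) := Quotient.exact hz.2
      obtain ⟨g, a, b, ha, hb, h⟩ := hrel
      rw [h0, smul_zero] at h
      have h2 : sh g (hf z) = 0 := (smul_eq_zero.1 h).resolve_left ha
      have h3 : hf z = 0 := by
        have := congrArg (sh (-g)) h2
        rwa [sh_sh, add_neg_cancel, sh_zero, map_zero] at this
      rw [h3, map_zero]
    · have hfin : {w : Z3 | (m : ℤ) ∣ w 2 ∧ Com (hf z₀) (hh A 2 w)}.Finite :=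
        (finite_com hm hA h0 2).subset (fun w hw => hw.2)
      have hW : ∀ w, w ∈ hfin.toFinset ↔ (m : ℤ) ∣ w 2 ∧ Com (hf z₀) (hh A 2 w) := by
        intro w
        simp
      rw [← class_sum hm hA hcube' h0 (cc x) hfin.toFinset hW]
      symm
      -- reduction modulo m
      have hred : ∀ w : Z3, (m : ℤ) ∣ w 2 → ∃ g : Z3,
          w = P (w 0 % m).toNat (w 1 % m).toNat + m • g := by
        intro w hw
        obtain ⟨c, hc⟩ := hw
        refine ⟨![w 0 / m, w 1 / m, c], ?_⟩
        ext i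
        fin_cases i
        · simp only [Fin.zero_eta, Pi.add_apply, P_zero, Pi.smul_apply, Matrix.cons_val_zero,
            nsmul_eq_mul]
          rw [Int.toNat_of_nonneg (Int.emod_nonneg _ hm'.ne')]
          exact (Int.emod_add_mul_ediv (w 0) m).symm
        · simp only [Fin.mk_one, Pi.add_apply, P_one, Pi.smul_apply, Matrix.cons_val_one,
            nsmul_eq_mul, Matrix.cons_val_zero]
          rw [Int.toNat_of_nonneg (Int.emod_nonneg _ hm'.ne')]
          exact (Int.emod_add_mul_ediv (w 1) m).symm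
        · simp only [Fin.reduceFinMk, Pi.add_apply, P_two, Pi.smul_apply, nsmul_eq_mul,
            Matrix.cons_val, zero_add]
          exact hc
      refine Finset.sum_bij (fun w _ => ((w 0 % m).toNat, (w 1 % m).toNat)) ?_ ?_ ?_ ?_
      · intro w hw
        rw [hW] at hw
        obtain ⟨g, hg⟩ := hred w hw.1
        rw [Finset.mem_filter]
        refine ⟨?_, ?_⟩
        · rw [Finset.mem_product, Finset.mem_range, Finset.mem_range]
          have h2 := Int.emod_lt_of_pos (w 0) hm'
          have h3 := Int.emod_lt_of_pos (w 1) hm'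
          constructor
          · show (w 0 % m).toNat < m
            omega
          · show (w 1 % m).toNat < m
            omega
        · apply Quotient.sound
          show Rel _ _
          obtain ⟨a, b, ha, hb, hab⟩ := hw.2
          refine ⟨g, a, b, ha, hb, ?_⟩
          rw [← hab]
          congr 1
          conv_rhs => rw [hg]
          rw [hh_shift hA]
      · intro w hw w' hw' hww
        rw [hW] at hw hw'
        obtain ⟨g, hg⟩ := hred w hw.1
        obtain ⟨g', hg'⟩ := hred w' hw'.1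
        simp only [Prod.mk.injEq] at hww
        rw [← hww.1, ← hww.2] at hg'
        have e1 : w' = w + m • (g' - g) := by
          rw [smul_sub]
          conv_rhs => rw [hg]
          conv_lhs => rw [hg']
          abel
        have e2 := hw'.2
        rw [e1] at e2
        have := finite_class hm hA h0 hw.2 e2
        rw [e1, this, smul_zero, add_zero]
      · intro z hz
        rw [Finset.mem_filter] at hz
        have hrel : Rel (hf z) (hf z₀) := Quotient.exact hz.2
        obtain ⟨g, a, b, ha, hb, hab⟩ := hrel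
        have hzD := hz.1
        rw [Finset.mem_product, Finset.mem_range, Finset.mem_range] at hzD
        refine ⟨P z.1 z.2 + m • g, ?_, ?_⟩
        · rw [hW]
          refine ⟨?_, a, b, ha, hb, ?_⟩
          · rw [Pi.add_apply, P_two, zero_add, Pi.smul_apply, nsmul_eq_mul]
            exact Dvd.intro _ rfl
          · rw [hh_shift hA]
            exact hab
        · have e0 : (P z.1 z.2 + m • g) 0 = z.1 + m * g 0 := by
            rw [Pi.add_apply, P_zero, Pi.smul_apply, nsmul_eq_mul]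
          have e1 : (P z.1 z.2 + m • g) 1 = z.2 + m * g 1 := by
            rw [Pi.add_apply, P_one, Pi.smul_apply, nsmul_eq_mul]
          rw [e0, e1, Int.add_mul_emod_self_left, Int.add_mul_emod_self_left,
            Int.emod_eq_of_lt (by positivity) (by exact_mod_cast hzD.1),
            Int.emod_eq_of_lt (by positivity) (by exact_mod_cast hzD.2)]
          simp
      · intro w hw
        rw [hW] at hw
        obtain ⟨g, hg⟩ := hred w hw.1
        conv_lhs => rw [hg]
        rw [hh_shift hA, cc_shift]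
        have : disp x (hh A 2 (P (w 0 % m).toNat (w 1 % m).toNat)) = 0 := by
          rw [hh_two]
          exact hdisp _ _ _
        rw [this]
        simp [hf]
  rw [map_sum] at h1
  simp_rw [map_sum] at h1
  rw [← Finset.sum_product'] at h1
  have h2 : ∑ z ∈ D, cc x (hf z) = -1 := h1
  rw [hsum] at h2
  norm_num at h2

end Pool.Agent.Helper59_Flow
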